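import Mathlib

set_option autoImplicit false


namespace Pool.Agent.W49.ABPattern

/-- The limit of a finitely valued function along an ultrafilter. -/
theorem exists_lim {r : ℕ} (U : Ultrafilter ℕ) (f : ℕ → Fin r) :
    ∃ i : Fin r, ∀ᶠ n in (U : Filter ℕ), f n = i := by
  obtain ⟨i, hi⟩ := Ultrafilter.eq_pure_of_finite (U.map f)
  refine ⟨i, ?_⟩
  have h : {i} ∈ U.map f := by
    rw [hi]
    exact Set.mem_singleton i
  exact h

/-- Ramsey type statement for triples: for every finite colouring `c` of triples there are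
`p < q < r < t` such that the triples `pqr`, `qrt`, `pqt` have the same colour. -/
theorem ramsey3 {k : ℕ} (c : ℕ → ℕ → ℕ → Fin k) :
    ∃ p q r t : ℕ, p < q ∧ q < r ∧ r < t ∧ c p q r = c q r t ∧ c p q r = c p q t := by
  classical
  let U : Ultrafilter ℕ := Filter.hyperfilter ℕ
  have hU : ∀ m : ℕ, ∀ᶠ n in (U : Filter ℕ), m < n := by
    intro m
    have h1 : ∀ᶠ n in Filter.cofinite, m < n := by
      rw [Nat.cofinite_eq_atTop]
      exact Filter.eventually_gt_atTop m
    exact Filter.hyperfilter_le_cofinite h1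
  choose c2 hc2 using fun p : ℕ => fun q : ℕ => exists_lim U (c p q)
  choose c1 hc1 using fun p : ℕ => exists_lim U (c2 p)
  obtain ⟨c0, hc0⟩ := exists_lim U c1
  obtain ⟨p, hp⟩ := hc0.exists
  obtain ⟨q, ⟨hpq, hq1⟩, hq⟩ := (((hU p).and (hc1 p)).and hc0).exists
  obtain ⟨r, ⟨hqr, hr1⟩, hr⟩ := (((hU q).and (hc2 p q)).and (hc1 q)).exists
  obtain ⟨t, ⟨hrt, ht1⟩, ht⟩ := (((hU r).and (hc2 p q)).and (hc2 q r)).exists
  refine ⟨p, q, r, t, hpq, hqr, hrt, ?_, ?_⟩
  · rw [hr1, ht, hq1, hr, hq, hp]
  · rw [hr1, ht1]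

/-- The sequence `s 0 = 0`, `s (n+1) = s n + (s n)!` (so `s 1 = 1`). -/
def s : ℕ → ℕ
  | 0 => 0
  | n + 1 => s n + (s n).factorial

theorem s_lt_succ (n : ℕ) : s n < s (n + 1) := by
  have := Nat.factorial_pos (s n)
  simp only [s]
  omega

theorem s_strictMono : StrictMono s := strictMono_nat_of_lt_succ s_lt_succ

theorem dvd_step {k j m : ℕ} (hkj : k < j) (hjm : j ≤ m) : (s j - s k) ∣ (s m).factorial := by
  have h1 : s k < s j := s_strictMono hkj
  have h2 : s j ≤ s m := s_strictMono.monotone hjm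
  exact Nat.dvd_factorial (by omega) (by omega)

theorem dvd_diff {k j : ℕ} (hkj : k < j) (d : ℕ) : (s j - s k) ∣ (s (j + d) - s j) := by
  induction d with
  | zero => simp
  | succ d ih =>
    have h1 : s (j + (d + 1)) = s (j + d) + (s (j + d)).factorial := rfl
    have h2 : s j ≤ s (j + d) := s_strictMono.monotone (by omega)
    have h3 : s (j + (d + 1)) - s j = (s (j + d) - s j) + (s (j + d)).factorial := by omega
    rw [h3]
    exact dvd_add ih (dvd_step hkj (by omega))

theorem dvd_diff' {k j i : ℕ} (hkj : k < j) (hji : j ≤ i) : (s j - s k) ∣ (s i - s j) := by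
  obtain ⟨d, rfl⟩ := Nat.exists_eq_add_of_le hji
  exact dvd_diff hkj d

/-- For every coloring of the natural numbers with finitely many colors, there exist positive integers a and b such that a, b and a(b+1) all receive the same color. -/
theorem pattern :
    ∀ (r : ℕ) (c : ℕ → Fin r),
      ∃ a b : ℕ, 0 < a ∧ 0 < b ∧ c a = c b ∧ c a = c (a * (b + 1)) := by
  intro k c
  obtain ⟨p, q, r, t, hpq, hqr, hrt, h1, h2⟩ :=
    ramsey3 (fun x y z => c ((s z - s y) / (s y - s x)))
  have e1 : s p < s q := s_strictMono hpq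
  have e2 : s q < s r := s_strictMono hqr
  have e3 : s r < s t := s_strictMono hrt
  obtain ⟨a, ha⟩ := dvd_diff' hpq hqr.le
  obtain ⟨b, hb⟩ := dvd_diff' hqr hrt.le
  have ha0 : 0 < a := by
    rcases Nat.eq_zero_or_pos a with h | h
    · subst h; omega
    · exact h
  have hb0 : 0 < b := by
    rcases Nat.eq_zero_or_pos b with h | h
    · subst h; omega
    · exact h
  have hd : 0 < s q - s p := by omega
  have hd2 : 0 < s r - s q := by omega
  have q1 : (s r - s q) / (s q - s p) = a := by
    rw [ha]; exact Nat.mul_div_cancel_left a hd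
  have q2 : (s t - s r) / (s r - s q) = b := by
    rw [hb]; exact Nat.mul_div_cancel_left b hd2
  have q3 : (s t - s q) / (s q - s p) = a * (b + 1) := by
    have h3 : s t - s q = (s t - s r) + (s r - s q) := by omega
    have h4 : s t - s q = (s q - s p) * (a * (b + 1)) := by
      rw [h3, hb, ha]; ring
    rw [h4]; exact Nat.mul_div_cancel_left _ hd
  refine ⟨a, b, ha0, hb0, ?_, ?_⟩
  · simpa only [q1, q2] using h1
  · simpa only [q1, q3] using h2

end Pool.Agent.W49.ABPattern
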